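import Mathlib

/-!
# MP_68919f_an: the Lempert function of a smooth bounded pseudoconvex domain need not be
quasi-triangular
-/

namespace Pool.Agent.Results.MP_68919f_an.NoQTI

open Filter Topology Metric Asymptotics

/-- The Lempert function `ℓ_D(z, w)`. -/
noncomputable def lempert {n : ℕ} (D : Set (Fin n → ℂ)) (z w : Fin n → ℂ) : ℝ :=
  sInf {r : ℝ | ∃ (α : ℂ) (φ : ℂ → Fin n → ℂ), ‖α‖ < 1 ∧ r = ‖α‖ ∧
    DifferentiableOn ℂ φ (ball 0 1) ∧ Set.MapsTo φ (ball 0 1) D ∧ φ 0 = z ∧ φ α = w}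

/-- `ψ` is a continuous plurisubharmonic function on the open set `D`: for every closed analytic
disc `{a + ζ b : |ζ| ≤ 1}` in `D` its value at the centre is at most its mean over the boundary
circle. -/
def IsContPSH {n : ℕ} (D : Set (Fin n → ℂ)) (ψ : (Fin n → ℂ) → ℝ) : Prop :=
  ContinuousOn ψ D ∧ ∀ a b : Fin n → ℂ, (∀ ζ : ℂ, ‖ζ‖ ≤ 1 → a + ζ • b ∈ D) →
    ψ a ≤ Real.circleAverage (fun ζ : ℂ => ψ (a + ζ • b)) 0 1

/-- Pseudoconvexity: `D` is open and has a continuous plurisubharmonic exhaustion function. -/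
def IsPseudoconvex {n : ℕ} (D : Set (Fin n → ℂ)) : Prop :=
  IsOpen D ∧ ∃ ψ : (Fin n → ℂ) → ℝ, IsContPSH D ψ ∧ ∀ c : ℝ, IsCompact {x | x ∈ D ∧ ψ x ≤ c}

/-- `D` has `C^∞`-smooth boundary: near every boundary point it has a `C^∞` local defining
function whose differential does not vanish at boundary points. -/
def HasSmoothBoundary {n : ℕ} (D : Set (Fin n → ℂ)) : Prop :=
  ∀ p ∈ frontier D, ∃ (U : Set (Fin n → ℂ)) (ρ : (Fin n → ℂ) → ℝ), IsOpen U ∧ p ∈ U ∧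
    ContDiffOn ℝ (⊤ : ℕ∞) ρ U ∧ (∀ x ∈ U, x ∈ D ↔ ρ x < 0) ∧
    ∀ x ∈ frontier D ∩ U, fderiv ℝ ρ x ≠ 0

/-- abbreviation for `ℂ³` -/
abbrev C3 := Fin 3 → ℂ

/-- `|w + 1/2|² + |z₁ z₂|² + |z₁|⁶ + |z₂|⁶` -/
noncomputable def R (x : C3) : ℝ :=
  ‖x 0 + 1 / 2‖ ^ 2 + ‖x 1 * x 2‖ ^ 2 + ‖x 1 ^ 3‖ ^ 2 + ‖x 2 ^ 3‖ ^ 2

/-- The domain `Re w + |w|² + |z₁ z₂|² + |z₁|⁶ + |z₂|⁶ < 0`. -/
def Dom : Set C3 := {x | R x < 1 / 4}

lemma R_eq (x : C3) : R x - 1 / 4 = (x 0).re + ‖x 0‖ ^ 2 + ‖x 1‖ ^ 2 * ‖x 2‖ ^ 2 +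
    ‖x 1‖ ^ 6 + ‖x 2‖ ^ 6 := by
  unfold R
  have h : ‖x 0 + 1 / 2‖ ^ 2 = (x 0).re + ‖x 0‖ ^ 2 + 1 / 4 := by
    simp only [← Complex.normSq_eq_norm_sq, Complex.normSq_apply]
    simp
    ring
  rw [h]
  simp only [norm_mul, norm_pow]
  ring

lemma mem_Dom {x : C3} : x ∈ Dom ↔ (x 0).re + ‖x 0‖ ^ 2 + ‖x 1‖ ^ 2 * ‖x 2‖ ^ 2 +
    ‖x 1‖ ^ 6 + ‖x 2‖ ^ 6 < 0 := by
  have := R_eq x
  unfold Dom
  rw [Set.mem_ofPred_eq]
  constructor <;> intro h <;> linarith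

lemma R_contDiff : ContDiff ℝ (⊤ : ℕ∞) R := by
  have hp : ∀ j : Fin 3, ContDiff ℝ (⊤ : ℕ∞) (fun x : C3 => x j) := fun j =>
    contDiff_apply ℝ ℂ j
  unfold R
  exact (((((hp 0).add contDiff_const).norm_sq ℝ).add (((hp 1).mul (hp 2)).norm_sq ℝ)).add
    (((hp 1).pow 3).norm_sq ℝ)).add (((hp 2).pow 3).norm_sq ℝ)

lemma R_cont : Continuous R := R_contDiff.continuous

lemma Dom_open : IsOpen Dom := isOpen_lt R_cont continuous_const

lemma R_bound {x : C3} {c : ℝ} (hc : c ≤ 1 / 4) (hx : R x ≤ c) : ‖x‖ ≤ 1 := by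
  have h0 : ‖x 0 + 1 / 2‖ ^ 2 ≤ 1 / 4 := by
    unfold R at hx
    nlinarith [sq_nonneg ‖x 1 * x 2‖, sq_nonneg ‖x 1 ^ 3‖, sq_nonneg ‖x 2 ^ 3‖]
  have h1 : ‖x 1 ^ 3‖ ^ 2 ≤ 1 / 4 := by
    unfold R at hx
    nlinarith [sq_nonneg ‖x 1 * x 2‖, sq_nonneg ‖x 0 + 1 / 2‖, sq_nonneg ‖x 2 ^ 3‖]
  have h2 : ‖x 2 ^ 3‖ ^ 2 ≤ 1 / 4 := by
    unfold R at hx
    nlinarith [sq_nonneg ‖x 1 * x 2‖, sq_nonneg ‖x 0 + 1 / 2‖, sq_nonneg ‖x 1 ^ 3‖]
  have key : ∀ a : ℂ, ‖a ^ 3‖ ^ 2 ≤ 1 / 4 → ‖a‖ ≤ 1 := by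
    intro a ha
    by_contra hcon
    push Not at hcon
    have : 1 ≤ ‖a ^ 3‖ := by
      rw [norm_pow]
      exact one_le_pow₀ hcon.le
    nlinarith
  rw [pi_norm_le_iff_of_nonneg zero_le_one]
  intro i
  fin_cases i
  · show ‖x 0‖ ≤ 1
    have h3 : ‖x 0 + 1 / 2‖ ≤ 1 / 2 := by
      nlinarith [norm_nonneg (x 0 + 1 / 2)]
    have h4 : ‖x 0‖ ≤ ‖x 0 + 1 / 2‖ + ‖(1 / 2 : ℂ)‖ := by
      have := norm_sub_le (x 0 + 1 / 2) (1 / 2 : ℂ)
      simpa using this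
    have h5 : ‖(1 / 2 : ℂ)‖ = 1 / 2 := by norm_num
    linarith
  · exact key _ h1
  · exact key _ h2

lemma Dom_bounded : Bornology.IsBounded Dom := by
  refine (isBounded_closedBall : Bornology.IsBounded (closedBall (0 : C3) 1)).subset ?_
  intro x hx
  rw [mem_closedBall_zero_iff]
  exact R_bound le_rfl (le_of_lt hx)

/-- the centre -/
noncomputable def ctr : C3 := ![-1 / 2, 0, 0]

lemma R_radial (x : C3) (t : ℝ) : R (x + t • (x - ctr)) =
    ‖x 0 + 1 / 2‖ ^ 2 * (1 + t) ^ 2 + ‖x 1 * x 2‖ ^ 2 * (1 + t) ^ 4 + ‖x 1 ^ 3‖ ^ 2 * (1 + t) ^ 6 +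
      ‖x 2 ^ 3‖ ^ 2 * (1 + t) ^ 6 := by
  have e : ∀ i, (x + t • (x - ctr)) i = x i + (t : ℂ) * (x i - ctr i) := fun i => by
    simp only [Pi.add_apply, Pi.smul_apply, Pi.sub_apply, Complex.real_smul]
  have c0 : ctr 0 = -1 / 2 := rfl
  have c1 : ctr 1 = 0 := rfl
  have c2 : ctr 2 = 0 := rfl
  have e0 : (x + t • (x - ctr)) 0 + 1 / 2 = ((1 + t : ℝ) : ℂ) * (x 0 + 1 / 2) := by
    rw [e, c0]
    push_cast
    ring
  have e1 : (x + t • (x - ctr)) 1 = ((1 + t : ℝ) : ℂ) * x 1 := by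
    rw [e, c1]
    push_cast
    ring
  have e2 : (x + t • (x - ctr)) 2 = ((1 + t : ℝ) : ℂ) * x 2 := by
    rw [e, c2]
    push_cast
    ring
  unfold R
  rw [e0, e1, e2]
  simp only [norm_mul, norm_pow, Complex.norm_real, Real.norm_eq_abs, mul_pow]
  have ha : |1 + t| ^ 2 = (1 + t) ^ 2 := sq_abs _
  have hb : (|1 + t| ^ 3) ^ 2 = (1 + t) ^ 6 := by
    have : (|1 + t| ^ 3) ^ 2 = (|1 + t| ^ 2) ^ 3 := by ring
    rw [this, ha]
    ring
  rw [hb, ha]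
  ring

lemma Dom_connected : IsConnected Dom := by
  have hc : ctr ∈ Dom := by
    unfold Dom
    rw [Set.mem_ofPred_eq]
    unfold R
    simp [ctr]
    norm_num
  refine ⟨⟨ctr, hc⟩, ?_⟩
  have hstar : StarConvex ℝ ctr Dom := by
    rw [starConvex_iff_forall_pos hc]
    intro x hx a b ha hb hab
    have h1 : a • ctr + b • x = x + (b - 1) • (x - ctr) := by
      have : a = 1 - b := by linarith
      rw [this]
      module
    rw [h1]
    have h2 := R_radial x (b - 1)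
    have h3 : 1 + (b - 1) = b := by ring
    rw [h3] at h2
    unfold Dom at hx ⊢
    rw [Set.mem_ofPred_eq] at hx ⊢
    rw [h2]
    unfold R at hx
    have hb1 : b ≤ 1 := by linarith
    have p2 : b ^ 2 ≤ 1 := pow_le_one₀ hb.le hb1
    have p4 : b ^ 4 ≤ 1 := pow_le_one₀ hb.le hb1
    have p6 : b ^ 6 ≤ 1 := pow_le_one₀ hb.le hb1
    have q0 := mul_le_mul_of_nonneg_left p2 (sq_nonneg ‖x 0 + 1 / 2‖)
    have q1 := mul_le_mul_of_nonneg_left p4 (sq_nonneg ‖x 1 * x 2‖)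
    have q2 := mul_le_mul_of_nonneg_left p6 (sq_nonneg ‖x 1 ^ 3‖)
    have q3 := mul_le_mul_of_nonneg_left p6 (sq_nonneg ‖x 2 ^ 3‖)
    linarith
  exact (hstar.isPathConnected hc).isConnected.isPreconnected

lemma Dom_smooth : HasSmoothBoundary Dom := by
  intro p hp
  refine ⟨Set.univ, fun x => R x - 1 / 4, isOpen_univ, Set.mem_univ _,
    (R_contDiff.sub contDiff_const).contDiffOn, ?_, ?_⟩
  · intro x _
    unfold Dom
    rw [Set.mem_ofPred_eq, sub_neg]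
  · rintro x ⟨hx, -⟩ h0
    -- on the frontier `R x = 1/4`
    have hx1 : R x = 1 / 4 := by
      rw [Dom_open.frontier_eq] at hx
      refine le_antisymm ?_ (not_lt.1 hx.2)
      have hcl : IsClosed {x : C3 | R x ≤ 1 / 4} := isClosed_le R_cont continuous_const
      have hsub : Dom ⊆ {x : C3 | R x ≤ 1 / 4} := fun y hy => by
        have hy' : R y < 1 / 4 := hy
        exact hy'.le
      exact closure_minimal hsub hcl hx.1
    have hd : DifferentiableAt ℝ (fun x => R x - 1 / 4) x :=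
      ((R_contDiff.sub contDiff_const).differentiable (by simp)).differentiableAt
    have h1 := hd.lineDeriv_eq_fderiv (v := x - ctr)
    rw [h0, lineDeriv] at h1
    simp only [R_radial] at h1
    have h2 : HasDerivAt (fun t : ℝ => ‖x 0 + 1 / 2‖ ^ 2 * (1 + t) ^ 2 +
        ‖x 1 * x 2‖ ^ 2 * (1 + t) ^ 4 + ‖x 1 ^ 3‖ ^ 2 * (1 + t) ^ 6 +
        ‖x 2 ^ 3‖ ^ 2 * (1 + t) ^ 6 - 1 / 4)
        (‖x 0 + 1 / 2‖ ^ 2 * 2 + ‖x 1 * x 2‖ ^ 2 * 4 + ‖x 1 ^ 3‖ ^ 2 * 6 +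
        ‖x 2 ^ 3‖ ^ 2 * 6) 0 := by
      have hq : ∀ n : ℕ, HasDerivAt (fun t : ℝ => (1 + t) ^ n) n 0 := by
        intro n
        have := ((hasDerivAt_id' (0 : ℝ)).const_add 1).fun_pow n
        refine this.congr_deriv ?_
        simp
      exact ((((hq 2).const_mul _).fun_add ((hq 4).const_mul _)).fun_add
        ((hq 6).const_mul _)).fun_add ((hq 6).const_mul _) |>.sub_const _
    rw [h2.deriv] at h1
    have h3 : (0 : C3 →L[ℝ] ℝ) (x - ctr) = 0 := rfl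
    rw [h3] at h1
    unfold R at hx1
    nlinarith [sq_nonneg ‖x 0 + 1 / 2‖, sq_nonneg ‖x 1 * x 2‖, sq_nonneg ‖x 1 ^ 3‖,
      sq_nonneg ‖x 2 ^ 3‖]

/-! ### Pseudoconvexity -/

/-- the exhaustion function -/
noncomputable def psi (x : C3) : ℝ := (1 / 4 - R x)⁻¹

lemma psi_cont : ContinuousOn psi Dom := by
  refine ContinuousOn.inv₀ (continuousOn_const.sub R_cont.continuousOn) ?_
  intro x hx
  have : R x < 1 / 4 := hx
  linarith

lemma psi_compact (c : ℝ) : IsCompact {x : C3 | x ∈ Dom ∧ psi x ≤ c} := by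
  by_cases hc : 0 < c
  · have hset : {x : C3 | x ∈ Dom ∧ psi x ≤ c} = {x : C3 | R x ≤ 1 / 4 - c⁻¹} := by
      ext x
      constructor
      · rintro ⟨hx, hp⟩
        have hx' : R x < 1 / 4 := hx
        have h1 : 0 < 1 / 4 - R x := by linarith
        unfold psi at hp
        have h2 : c⁻¹ ≤ 1 / 4 - R x := (inv_le_comm₀ h1 hc).1 hp
        show R x ≤ 1 / 4 - c⁻¹
        linarith
      · intro hx
        have hx' : R x ≤ 1 / 4 - c⁻¹ := hx
        have hci : 0 < c⁻¹ := inv_pos.2 hc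
        have h1 : 0 < 1 / 4 - R x := by linarith
        refine ⟨(by show R x < 1 / 4; linarith), ?_⟩
        unfold psi
        exact (inv_le_comm₀ h1 hc).2 (by linarith)
    rw [hset]
    refine Metric.isCompact_of_isClosed_isBounded (isClosed_le R_cont continuous_const) ?_
    refine (isBounded_closedBall : Bornology.IsBounded (closedBall (0 : C3) 1)).subset ?_
    intro x hx
    rw [mem_closedBall_zero_iff]
    refine R_bound ?_ hx
    have : 0 < c⁻¹ := inv_pos.2 hc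
    linarith
  · have hset : {x : C3 | x ∈ Dom ∧ psi x ≤ c} = ∅ := by
      rw [Set.eq_empty_iff_forall_notMem]
      rintro x ⟨hx, hp⟩
      have hx' : R x < 1 / 4 := hx
      have h1 : 0 < (1 / 4 - R x)⁻¹ := inv_pos.2 (by linarith)
      unfold psi at hp
      linarith
    rw [hset]
    exact isCompact_empty

lemma inv_tangent {s t : ℝ} (hs : 0 < s) (ht : 0 < t) : s⁻¹ + (s - t) * (s⁻¹) ^ 2 ≤ t⁻¹ := by
  rw [← sub_nonneg]
  have : t⁻¹ - (s⁻¹ + (s - t) * (s⁻¹) ^ 2) = (s - t) ^ 2 / (t * s ^ 2) := by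
    field_simp
    ring
  rw [this]
  positivity

lemma sq_tangent (a b : ℂ) : ‖b‖ ^ 2 + (2 * (starRingEnd ℂ) b * (a - b)).re ≤ ‖a‖ ^ 2 := by
  have : ‖a‖ ^ 2 - ‖b‖ ^ 2 = (2 * (starRingEnd ℂ) b * (a - b)).re + ‖a - b‖ ^ 2 := by
    simp only [← Complex.normSq_eq_norm_sq, Complex.normSq_apply]
    simp
    ring
  nlinarith [sq_nonneg ‖a - b‖]

lemma psi_psh (a b : C3) (hab : ∀ ζ : ℂ, ‖ζ‖ ≤ 1 → a + ζ • b ∈ Dom) :
    psi a ≤ Real.circleAverage (fun ζ : ℂ => psi (a + ζ • b)) 0 1 := by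
  -- the holomorphic minorant
  set F0 : ℂ → ℂ := fun ζ => (a + ζ • b) 0 + 1 / 2 with hF0
  set F1 : ℂ → ℂ := fun ζ => (a + ζ • b) 1 * (a + ζ • b) 2 with hF1
  set F2 : ℂ → ℂ := fun ζ => (a + ζ • b) 1 ^ 3 with hF2
  set F3 : ℂ → ℂ := fun ζ => (a + ζ • b) 2 ^ 3 with hF3
  have hcoord : ∀ j : Fin 3, Differentiable ℂ (fun ζ : ℂ => (a + ζ • b) j) := by
    intro j
    have : (fun ζ : ℂ => (a + ζ • b) j) = fun ζ => a j + ζ * b j := by
      funext ζ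
      simp
    rw [this]
    fun_prop
  have hd0 : Differentiable ℂ F0 := (hcoord 0).add_const _
  have hd1 : Differentiable ℂ F1 := (hcoord 1).mul (hcoord 2)
  have hd2 : Differentiable ℂ F2 := (hcoord 1).pow 3
  have hd3 : Differentiable ℂ F3 := (hcoord 2).pow 3
  set K : ℝ := psi a ^ 2 with hK
  set H : ℂ → ℂ := fun ζ => (K : ℂ) * (2 * (starRingEnd ℂ) (F0 0) * (F0 ζ - F0 0) +
    2 * (starRingEnd ℂ) (F1 0) * (F1 ζ - F1 0) + 2 * (starRingEnd ℂ) (F2 0) * (F2 ζ - F2 0) +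
    2 * (starRingEnd ℂ) (F3 0) * (F3 ζ - F3 0)) with hH
  have hHd : Differentiable ℂ H := by
    rw [hH]
    fun_prop
  have hH0 : H 0 = 0 := by
    rw [hH]
    simp
  have ha : a ∈ Dom := by
    have := hab 0 (by simp)
    simpa using this
  have ha' : R a < 1 / 4 := ha
  have hRF : ∀ ζ, R (a + ζ • b) = ‖F0 ζ‖ ^ 2 + ‖F1 ζ‖ ^ 2 + ‖F2 ζ‖ ^ 2 + ‖F3 ζ‖ ^ 2 := fun ζ => rfl
  have hRa : R a = ‖F0 0‖ ^ 2 + ‖F1 0‖ ^ 2 + ‖F2 0‖ ^ 2 + ‖F3 0‖ ^ 2 := by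
    rw [← hRF 0]
    simp
  have hpt : ∀ ζ ∈ sphere (0 : ℂ) |1|, psi a + (H ζ).re ≤ psi (a + ζ • b) := by
    intro ζ hζ
    rw [abs_one, mem_sphere_zero_iff_norm] at hζ
    have hmem : R (a + ζ • b) < 1 / 4 := hab ζ hζ.le
    have h1 := inv_tangent (s := 1 / 4 - R a) (t := 1 / 4 - R (a + ζ • b)) (by linarith)
      (by linarith)
    have h2 : (H ζ).re ≤ (R (a + ζ • b) - R a) * K := by
      rw [hH]
      simp only
      rw [Complex.re_ofReal_mul, mul_comm]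
      refine mul_le_mul_of_nonneg_right ?_ (sq_nonneg _)
      rw [hRF, hRa]
      simp only [Complex.add_re]
      have t0 := sq_tangent (F0 ζ) (F0 0)
      have t1 := sq_tangent (F1 ζ) (F1 0)
      have t2 := sq_tangent (F2 ζ) (F2 0)
      have t3 := sq_tangent (F3 ζ) (F3 0)
      linarith
    have h3 : (1 / 4 - R a - (1 / 4 - R (a + ζ • b))) = R (a + ζ • b) - R a := by ring
    rw [h3] at h1
    have hpa : psi a = (1 / 4 - R a)⁻¹ := rfl
    have hpb : psi (a + ζ • b) = (1 / 4 - R (a + ζ • b))⁻¹ := rfl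
    rw [hpb]
    rw [hK, hpa] at h2
    rw [hpa]
    linarith
  have hci1 : CircleIntegrable (fun ζ : ℂ => psi a + (H ζ).re) 0 1 := by
    refine ContinuousOn.circleIntegrable' ?_
    exact (continuous_const.add (Complex.continuous_re.comp hHd.continuous)).continuousOn
  have hci2 : CircleIntegrable (fun ζ : ℂ => psi (a + ζ • b)) 0 1 := by
    refine ContinuousOn.circleIntegrable' ?_
    refine psi_cont.comp (by fun_prop) ?_
    intro ζ hζ
    rw [abs_one, mem_sphere_zero_iff_norm] at hζ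
    exact hab ζ hζ.le
  have hmono := Real.circleAverage_mono hci1 hci2 hpt
  have havg : Real.circleAverage (fun ζ : ℂ => psi a + (H ζ).re) 0 1 = psi a := by
    have hciH : CircleIntegrable H 0 1 := hHd.continuous.continuousOn.circleIntegrable'
    have h1 := Complex.reCLM.circleAverage_comp_comm hciH
    have h2 := (hHd.diffContOnCl (s := ball (0 : ℂ) |1|)).circleAverage
    rw [h2, hH0, map_zero] at h1
    have h3 : (⇑Complex.reCLM ∘ H) = fun ζ => (H ζ).re := rfl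
    rw [h3] at h1
    have hci3 : CircleIntegrable (fun ζ : ℂ => (H ζ).re) 0 1 :=
      (Complex.continuous_re.comp hHd.continuous).continuousOn.circleIntegrable'
    have hci4 : CircleIntegrable (fun _ : ℂ => psi a) 0 1 :=
      continuous_const.continuousOn.circleIntegrable'
    rw [Real.circleAverage_fun_add hci4 hci3, h1, Real.circleAverage_const, add_zero]
  rw [havg] at hmono
  exact hmono

lemma Dom_pseudoconvex : IsPseudoconvex Dom :=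
  ⟨Dom_open, psi, ⟨psi_cont, psi_psh⟩, psi_compact⟩

/-! ### The Lempert function -/

lemma lempert_le {x y : C3} {α : ℂ} {φ : ℂ → C3} (hα : ‖α‖ < 1)
    (hd : DifferentiableOn ℂ φ (ball 0 1)) (hm : Set.MapsTo φ (ball 0 1) Dom) (h0 : φ 0 = x)
    (h1 : φ α = y) : lempert Dom x y ≤ ‖α‖ := by
  refine csInf_le ⟨0, ?_⟩ ⟨α, φ, hα, rfl, hd, hm, h0, h1⟩
  rintro r ⟨β, _, _, rfl, _⟩
  exact norm_nonneg β

/-- the affine disc `ζ ↦ (w, a + r ζ, b + r' ζ)` -/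
noncomputable def disc (w a b r r' : ℝ) (ζ : ℂ) : C3 := ![(w : ℂ), a + r * ζ, b + r' * ζ]

lemma disc_diff (w a b r r' : ℝ) : Differentiable ℂ (disc w a b r r') := by
  rw [differentiable_pi]
  intro i
  fin_cases i
  · simp only [disc]
    simp
  · simp only [disc]
    simp
    fun_prop
  · simp only [disc]
    simp
    fun_prop

lemma disc_mem {w a b r r' : ℝ} (hr : 0 ≤ r) (hr' : 0 ≤ r') (ha : 0 ≤ a) (hb : 0 ≤ b)
    (h : w + w ^ 2 + (a + r) ^ 2 * (b + r') ^ 2 + (a + r) ^ 6 + (b + r') ^ 6 < 0) {ζ : ℂ}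
    (hζ : ζ ∈ ball (0 : ℂ) 1) : disc w a b r r' ζ ∈ Dom := by
  rw [mem_ball_zero_iff] at hζ
  rw [mem_Dom]
  have h1 : ‖disc w a b r r' ζ 1‖ ≤ a + r := by
    show ‖(a : ℂ) + r * ζ‖ ≤ a + r
    refine (norm_add_le _ _).trans ?_
    rw [norm_mul, Complex.norm_real, Complex.norm_real, Real.norm_of_nonneg ha,
      Real.norm_of_nonneg hr]
    nlinarith
  have h2 : ‖disc w a b r r' ζ 2‖ ≤ b + r' := by
    show ‖(b : ℂ) + r' * ζ‖ ≤ b + r'
    refine (norm_add_le _ _).trans ?_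
    rw [norm_mul, Complex.norm_real, Complex.norm_real, Real.norm_of_nonneg hb,
      Real.norm_of_nonneg hr']
    nlinarith
  have h0 : disc w a b r r' ζ 0 = (w : ℂ) := rfl
  rw [h0, Complex.ofReal_re, Complex.norm_real, Real.norm_eq_abs, sq_abs]
  have n1 := norm_nonneg (disc w a b r r' ζ 1)
  have n2 := norm_nonneg (disc w a b r r' ζ 2)
  have e1 := pow_le_pow_left₀ n1 h1 6
  have e2 := pow_le_pow_left₀ n2 h2 6
  have e3 := mul_le_mul (pow_le_pow_left₀ n1 h1 2) (pow_le_pow_left₀ n2 h2 2) (by positivity)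
    (by positivity)
  linarith

/-- the crucial lower bound for discs joining `(-s¹², 0, 0)` to `(-s¹², s⁶, s⁶)` -/
lemma lower {s : ℝ} (hs : 0 < s) (hs1 : s ≤ 1) {α : ℂ} {φ : ℂ → C3} (hα : ‖α‖ < 1)
    (hd : DifferentiableOn ℂ φ (ball 0 1)) (hm : Set.MapsTo φ (ball 0 1) Dom)
    (h0 : φ 0 = disc (-s ^ 12) 0 0 0 0 0) (h1 : φ α = disc (-s ^ 12) (s ^ 6) (s ^ 6) 0 0 0) :
    s ^ 3 / 4 ≤ ‖α‖ := by
  have hs12 : 0 < s ^ 12 := by positivity
  by_cases hα2 : 1 / 2 ≤ ‖α‖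
  · have : s ^ 3 ≤ 1 := pow_le_one₀ hs.le hs1
    linarith
  push Not at hα2
  have hcoord : ∀ j : Fin 3, DifferentiableOn ℂ (fun ζ => φ ζ j) (ball 0 1) := fun j =>
    differentiableOn_pi.1 hd j
  -- the first component
  have hre : ∀ ζ ∈ ball (0 : ℂ) 1, (φ ζ 0).re + ‖φ ζ 1‖ ^ 2 * ‖φ ζ 2‖ ^ 2 < 0 := by
    intro ζ hζ
    have := mem_Dom.1 (hm hζ)
    have a1 := sq_nonneg ‖φ ζ 0‖
    have a2 : 0 ≤ ‖φ ζ 1‖ ^ 6 := by positivity
    have a3 : 0 ≤ ‖φ ζ 2‖ ^ 6 := by positivity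
    linarith
  set F : ℂ → ℂ := fun ζ => (φ ζ 0 + (s ^ 12 : ℝ)) / (φ ζ 0 - (s ^ 12 : ℝ)) with hF
  have hlt : ∀ ζ ∈ ball (0 : ℂ) 1, ‖φ ζ 0 + (s ^ 12 : ℝ)‖ < ‖φ ζ 0 - (s ^ 12 : ℝ)‖ := by
    intro ζ hζ
    have h2 := hre ζ hζ
    have h3 : (φ ζ 0).re < 0 := by
      have : 0 ≤ ‖φ ζ 1‖ ^ 2 * ‖φ ζ 2‖ ^ 2 := by positivity
      linarith
    have h4 : ‖φ ζ 0 + (s ^ 12 : ℝ)‖ ^ 2 < ‖φ ζ 0 - (s ^ 12 : ℝ)‖ ^ 2 := by
      simp only [← Complex.normSq_eq_norm_sq, Complex.normSq_apply, Complex.add_re,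
        Complex.sub_re, Complex.add_im, Complex.sub_im, Complex.ofReal_re, Complex.ofReal_im]
      nlinarith
    exact lt_of_pow_lt_pow_left₀ 2 (norm_nonneg _) h4
  have hFd : DifferentiableOn ℂ F (ball 0 1) := by
    refine DifferentiableOn.fun_div ((hcoord 0).add_const _) ((hcoord 0).sub_const _) ?_
    intro ζ hζ h
    have := hlt ζ hζ
    rw [h, norm_zero] at this
    exact absurd this (not_lt.2 (norm_nonneg _))
  have hFm : Set.MapsTo F (ball 0 1) (closedBall 0 1) := by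
    intro ζ hζ
    have h2 := hlt ζ hζ
    rw [mem_closedBall_zero_iff, hF]
    simp only
    rw [norm_div]
    exact div_le_one_of_le₀ h2.le (norm_nonneg _)
  have hF0 : F 0 = 0 := by
    rw [hF]
    simp only
    rw [h0]
    simp [disc]
  have hsmall : ∀ ζ ∈ ball (0 : ℂ) (1 / 2), -(φ ζ 0).re ≤ 3 * s ^ 12 := by
    intro ζ hζ
    rw [mem_ball_zero_iff] at hζ
    have hζ1 : ζ ∈ ball (0 : ℂ) 1 := by
      rw [mem_ball_zero_iff]
      linarith
    have h2 := Complex.norm_le_norm_of_mapsTo_ball hFd hFm hF0 (by linarith : ‖ζ‖ < 1)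
    have hpos : 0 < ‖φ ζ 0 - (s ^ 12 : ℝ)‖ := lt_of_le_of_lt (norm_nonneg _) (hlt ζ hζ1)
    rw [hF] at h2
    simp only at h2
    rw [norm_div, div_le_iff₀ hpos] at h2
    have h3 : ‖φ ζ 0 + (s ^ 12 : ℝ)‖ ≤ 1 / 2 * ‖φ ζ 0 - (s ^ 12 : ℝ)‖ := by nlinarith
    have h4 : ‖φ ζ 0 - (s ^ 12 : ℝ)‖ ≤ ‖φ ζ 0‖ + s ^ 12 := by
      refine (norm_sub_le _ _).trans ?_
      rw [Complex.norm_real, Real.norm_of_nonneg hs12.le]
    have h5 : ‖φ ζ 0‖ - s ^ 12 ≤ ‖φ ζ 0 + (s ^ 12 : ℝ)‖ := by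
      have := norm_sub_le (φ ζ 0 + (s ^ 12 : ℝ)) ((s ^ 12 : ℝ) : ℂ)
      rw [add_sub_cancel_right, Complex.norm_real, Real.norm_of_nonneg hs12.le] at this
      linarith
    have h6 := (abs_le.1 (Complex.abs_re_le_norm (φ ζ 0))).1
    linarith
  -- the product
  set h : ℂ → ℂ := fun ζ => φ ζ 1 * φ ζ 2 with hh
  have hhd : DifferentiableOn ℂ h (ball 0 (1 / 2)) :=
    ((hcoord 1).mul (hcoord 2)).mono (ball_subset_ball (by norm_num))
  have z1 : φ 0 1 = 0 := by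
    rw [h0]
    simp [disc]
  have z2 : φ 0 2 = 0 := by
    rw [h0]
    simp [disc]
  have hh0 : h 0 = 0 := by
    rw [hh]
    simp only
    rw [z1, zero_mul]
  have hhm : Set.MapsTo h (ball 0 (1 / 2)) (closedBall (h 0) (2 * s ^ 6)) := by
    intro ζ hζ
    rw [hh0, mem_closedBall_zero_iff]
    have hζ1 : ζ ∈ ball (0 : ℂ) 1 := ball_subset_ball (by norm_num) hζ
    have h2 := hre ζ hζ1
    have h3 := hsmall ζ hζ
    have h4 : ‖h ζ‖ ^ 2 ≤ (2 * s ^ 6) ^ 2 := by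
      rw [hh]
      simp only
      rw [norm_mul, mul_pow]
      nlinarith
    exact le_of_sq_le_sq h4 (by positivity)
  have hlo : (fun ζ => h ζ - h 0) =o[𝓝 0] (fun w : ℂ => ‖w - 0‖ ^ 1) := by
    have d1 : HasDerivAt (fun ζ => φ ζ 1) (deriv (fun ζ => φ ζ 1) 0) 0 :=
      ((hcoord 1).differentiableAt (ball_mem_nhds _ one_pos)).hasDerivAt
    have d2 : HasDerivAt (fun ζ => φ ζ 2) (deriv (fun ζ => φ ζ 2) 0) 0 :=
      ((hcoord 2).differentiableAt (ball_mem_nhds _ one_pos)).hasDerivAt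
    have b1 : (fun ζ => φ ζ 1) =O[𝓝 0] (fun w : ℂ => w - 0) := by
      have := d1.isBigO_sub
      simpa only [z1, sub_zero] using this
    have b2 : (fun ζ => φ ζ 2) =o[𝓝 0] (fun _ : ℂ => (1 : ℝ)) := by
      rw [isLittleO_one_iff]
      have := d2.continuousAt.tendsto
      rwa [z2] at this
    have b3 := b1.norm_right.mul_isLittleO b2
    rw [hh0]
    simpa only [sub_zero, mul_one, pow_one] using b3
  have hα' : α ∈ ball (0 : ℂ) (1 / 2) := by rwa [mem_ball_zero_iff]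
  have hmain := Complex.dist_le_mul_div_pow_of_mapsTo_ball_of_isLittleO (n := 1) hhd hhm hlo hα'
  have hhα : h α = ((s ^ 12 : ℝ) : ℂ) := by
    rw [hh]
    simp only
    rw [h1]
    simp [disc]
    ring
  rw [hh0, dist_zero_right, dist_zero_right, hhα, Complex.norm_real,
    Real.norm_of_nonneg hs12.le] at hmain
  have h7 : s ^ 6 ≤ 8 * ‖α‖ ^ 2 := by
    have h8 : s ^ 12 = s ^ 6 * s ^ 6 := by ring
    have h9 : 2 * s ^ 6 * (‖α‖ / (1 / 2)) ^ (1 + 1) = s ^ 6 * (8 * ‖α‖ ^ 2) := by ring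
    rw [h8, h9] at hmain
    exact le_of_mul_le_mul_left hmain (by positivity)
  have h10 : (s ^ 3 / 4) ^ 2 ≤ ‖α‖ ^ 2 := by
    have : (s ^ 3 / 4) ^ 2 = s ^ 6 / 16 := by ring
    rw [this]
    nlinarith [sq_nonneg ‖α‖]
  exact le_of_sq_le_sq h10 (norm_nonneg _)

/-- **Negative answer to Q1 of MP_68919f_an.** There is a bounded pseudoconvex domain in `ℂ³`
with `C^∞`-smooth boundary whose Lempert function satisfies no quasi triangle inequality. -/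
theorem result : ∃ D : Set (Fin 3 → ℂ), IsOpen D ∧ IsConnected D ∧ Bornology.IsBounded D ∧
    IsPseudoconvex D ∧ HasSmoothBoundary D ∧
    ∀ C : ℝ, 1 ≤ C → ∃ x ∈ D, ∃ y ∈ D, ∃ z ∈ D,
      C * (lempert D x y + lempert D y z) < lempert D x z := by
  refine ⟨Dom, Dom_open, Dom_connected, Dom_bounded, Dom_pseudoconvex, Dom_smooth, ?_⟩
  intro C hC
  set s : ℝ := 1 / (32 * C) with hs
  have hs0 : 0 < s := by positivity
  have hs32 : s ≤ 1 / 32 := by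
    rw [hs]
    exact one_div_le_one_div_of_le (by norm_num) (by linarith)
  have hs1 : s ≤ 1 := by linarith
  have hCs : C * s = 1 / 32 := by
    rw [hs]
    field_simp
  -- elementary bounds
  have p4 : s ^ 4 ≤ 1 / 16 := by
    have : s ^ 4 ≤ (1 / 32 : ℝ) ^ 4 := pow_le_pow_left₀ hs0.le hs32 4
    norm_num at this ⊢
    linarith
  have hs12 : 0 < s ^ 12 := by positivity
  have hs12' : s ^ 12 ≤ 1 / 4 := by
    have : s ^ 12 ≤ (1 / 32 : ℝ) ^ 12 := pow_le_pow_left₀ hs0.le hs32 12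
    norm_num at this ⊢
    linarith
  have hneg : -s ^ 12 + (-s ^ 12) ^ 2 ≤ -(3 / 4) * s ^ 12 := by nlinarith
  -- the three points
  set x : C3 := disc (-s ^ 12) 0 0 0 0 0 with hx
  set y : C3 := disc (-s ^ 12) (s ^ 6) 0 0 0 0 with hy
  set z : C3 := disc (-s ^ 12) (s ^ 6) (s ^ 6) 0 0 0 with hz
  have hs6 : s ^ 6 ≤ s ^ 2 / 4 := by
    have : s ^ 6 = s ^ 2 * s ^ 4 := by ring
    rw [this]
    nlinarith [sq_nonneg s]
  have hs6' : 0 ≤ s ^ 6 := by positivity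
  have hs2' : 0 ≤ s ^ 2 := by positivity
  have hb6 : (s ^ 6) ^ 6 ≤ s ^ 12 / 16 := by
    have h1 : (s ^ 6) ^ 6 = s ^ 12 * (s ^ 4 * (s ^ 4) ^ 5) := by ring
    have h2 : (s ^ 4) ^ 5 ≤ 1 := pow_le_one₀ (by positivity) (by linarith)
    have h3 : s ^ 4 * (s ^ 4) ^ 5 ≤ 1 / 16 * 1 := mul_le_mul p4 h2 (by positivity) (by norm_num)
    rw [h1]
    nlinarith
  have hr6 : (s ^ 2 / 2) ^ 6 = s ^ 12 / 64 := by ring
  have hxy : lempert Dom x y ≤ 2 * s ^ 4 := by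
    have hα : ‖((2 * s ^ 4 : ℝ) : ℂ)‖ = 2 * s ^ 4 := by
      rw [Complex.norm_real, Real.norm_of_nonneg (by positivity)]
    have := lempert_le (x := x) (y := y) (α := ((2 * s ^ 4 : ℝ) : ℂ))
      (φ := disc (-s ^ 12) 0 0 (s ^ 2 / 2) 0) (by rw [hα]; linarith) (disc_diff _ _ _ _ _).differentiableOn
      (fun ζ hζ => disc_mem (by positivity) le_rfl le_rfl le_rfl (by
        rw [zero_add, zero_add, hr6]
        nlinarith) hζ) ?_ ?_
    · rwa [hα] at this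
    · rw [hx]
      simp [disc]
    · rw [hy]
      funext i
      fin_cases i
      · rfl
      · simp [disc]
        ring
      · simp [disc]
  have hyz : lempert Dom y z ≤ 2 * s ^ 4 := by
    have hα : ‖((2 * s ^ 4 : ℝ) : ℂ)‖ = 2 * s ^ 4 := by
      rw [Complex.norm_real, Real.norm_of_nonneg (by positivity)]
    have hprod : (s ^ 6 + 0) ^ 2 * (0 + s ^ 2 / 2) ^ 2 ≤ s ^ 12 / 16 := by
      have : (s ^ 6 + 0) ^ 2 * (0 + s ^ 2 / 2) ^ 2 = s ^ 12 * (s ^ 4 / 4) := by ring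
      rw [this]
      nlinarith
    have := lempert_le (x := y) (y := z) (α := ((2 * s ^ 4 : ℝ) : ℂ))
      (φ := disc (-s ^ 12) (s ^ 6) 0 0 (s ^ 2 / 2)) (by rw [hα]; linarith)
      (disc_diff _ _ _ _ _).differentiableOn
      (fun ζ hζ => disc_mem le_rfl (by positivity) hs6' le_rfl (by
        have e1 : (s ^ 6 + 0) ^ 6 ≤ s ^ 12 / 16 := by rwa [add_zero]
        have e2 : (0 + s ^ 2 / 2) ^ 6 = s ^ 12 / 64 := by rw [zero_add, hr6]
        rw [e2]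
        linarith) hζ) ?_ ?_
    · rwa [hα] at this
    · rw [hy]
      simp [disc]
    · rw [hz]
      funext i
      fin_cases i
      · rfl
      · simp [disc]
      · simp [disc]
        ring
  have hxz : s ^ 3 / 4 ≤ lempert Dom x z := by
    refine le_csInf ?_ ?_
    · -- a disc through `x` and `z`
      have hα : ‖((2 * s ^ 3 : ℝ) : ℂ)‖ = 2 * s ^ 3 := by
        rw [Complex.norm_real, Real.norm_of_nonneg (by positivity)]
      have hs3 : s ^ 3 ≤ 1 / 4 := by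
        have : s ^ 3 ≤ (1 / 32 : ℝ) ^ 3 := pow_le_pow_left₀ hs0.le hs32 3
        norm_num at this ⊢
        linarith
      refine ⟨2 * s ^ 3, ((2 * s ^ 3 : ℝ) : ℂ), disc (-s ^ 12) 0 0 (s ^ 3 / 2) (s ^ 3 / 2),
        by rw [hα]; linarith, hα.symm, (disc_diff _ _ _ _ _).differentiableOn, ?_, ?_, ?_⟩
      · intro ζ hζ
        refine disc_mem (by positivity) (by positivity) le_rfl le_rfl ?_ hζ
        have e1 : (0 + s ^ 3 / 2) ^ 2 * (0 + s ^ 3 / 2) ^ 2 = s ^ 12 / 16 := by ring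
        have e2 : (0 + s ^ 3 / 2) ^ 6 = s ^ 12 * s ^ 6 / 64 := by ring
        have e3 : s ^ 6 ≤ 1 := pow_le_one₀ hs0.le hs1
        rw [e1, e2]
        nlinarith
      · rw [hx]
        simp [disc]
      · rw [hz]
        funext i
        fin_cases i
        · rfl
        · simp [disc]
          ring
        · simp [disc]
          ring
    · rintro r ⟨α, φ, hα, rfl, hd, hm, h0, h1⟩
      exact lower hs0 hs1 hα hd hm h0 h1
  have hmem : ∀ a b : ℝ, 0 ≤ a → 0 ≤ b → a ≤ s ^ 6 → b ≤ s ^ 6 → disc (-s ^ 12) a b 0 0 0 ∈ Dom := by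
    intro a b ha hb ha' hb'
    refine disc_mem le_rfl le_rfl ha hb ?_ (mem_ball_self one_pos)
    have e1 : (a + 0) ^ 6 ≤ s ^ 12 / 16 := by
      rw [add_zero]
      exact (pow_le_pow_left₀ ha ha' 6).trans hb6
    have e2 : (b + 0) ^ 6 ≤ s ^ 12 / 16 := by
      rw [add_zero]
      exact (pow_le_pow_left₀ hb hb' 6).trans hb6
    have e3 : (a + 0) ^ 2 * (b + 0) ^ 2 ≤ s ^ 12 / 16 := by
      rw [add_zero, add_zero]
      have e4 : a ^ 2 * b ^ 2 ≤ (s ^ 6) ^ 2 * (s ^ 6) ^ 2 :=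
        mul_le_mul (pow_le_pow_left₀ ha ha' 2) (pow_le_pow_left₀ hb hb' 2) (by positivity)
          (by positivity)
      have e5 : (s ^ 6) ^ 2 * (s ^ 6) ^ 2 = s ^ 12 * (s ^ 4 * (s ^ 4) ^ 2) := by ring
      have e6 : (s ^ 4) ^ 2 ≤ 1 := pow_le_one₀ (by positivity) (by linarith)
      have e7 : s ^ 4 * (s ^ 4) ^ 2 ≤ 1 / 16 * 1 := mul_le_mul p4 e6 (by positivity) (by norm_num)
      nlinarith
    linarith
  refine ⟨x, hmem 0 0 le_rfl le_rfl hs6' hs6', y, hmem _ 0 hs6' le_rfl le_rfl hs6',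
    z, hmem _ _ hs6' hs6' le_rfl le_rfl, ?_⟩
  have hfin : C * (lempert Dom x y + lempert Dom y z) ≤ C * (4 * s ^ 4) :=
    mul_le_mul_of_nonneg_left (by linarith) (by linarith)
  have h1 : C * (4 * s ^ 4) = s ^ 3 / 8 := by
    have : C * (4 * s ^ 4) = 4 * (C * s) * s ^ 3 := by ring
    rw [this, hCs]
    ring
  have h2 : 0 < s ^ 3 := by positivity
  linarith

end Pool.Agent.Results.MP_68919f_an.NoQTI
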